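import Pool.Agent.X225.Fr.Build

/-!
# Rigid `k`-subsets give structurally sharply `k`-transitive actions

The free group of countable rank has a structurally sharply `k`-transitive action on every Fraisse
structure with rigid `k`-subsets.  The action is built from finite partial actions, i.e. finite sets of
labelled edges such that the edges of one label are a part of an automorphism, and such that no
nontrivial reduced word fixes a tuple of `k` different points.  The partial maps are extended to new
points by strong amalgamation (the new point is a leaf), and two tuples of the same type that are not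
yet connected are connected by a fresh generator; rigidity excludes new closed walks.
-/

universe u v w

namespace Pool.Agent.Results.MP_301b8f_al.RigidSharplyTransitive

open FirstOrder FirstOrder.Language CategoryTheory

section Defs

variable (L : FirstOrder.Language.{u, v}) (M : Type w) [L.Structure M]

/-- strong amalgamation of a class of structures -/
def StrongAmalgamation {L : FirstOrder.Language.{u, v}} (K : Set (Bundled.{w} L.Structure)) : Prop :=
  ∀ (A B C : Bundled.{w} L.Structure) (f : A ↪[L] B) (g : A ↪[L] C), A ∈ K → B ∈ K → C ∈ K →
    ∃ (D : Bundled.{w} L.Structure) (f' : B ↪[L] D) (g' : C ↪[L] D), D ∈ K ∧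
      f'.comp f = g'.comp g ∧ Set.range f' ∩ Set.range g' = Set.range (f'.comp f)

/-- A relational Fraisse structure with strong amalgamation: a countably infinite ultrahomogeneous
structure in a relational language whose age has strong amalgamation. -/
structure IsFraisseStructure : Prop where
  relational : L.IsRelational
  countable : Countable M
  infinite : Infinite M
  ultrahomogeneous : L.IsUltrahomogeneous M
  strongAmalgamation : StrongAmalgamation (L.age M)

/-- `M` has rigid `k`-subsets: every substructure with exactly `k` elements has only the trivial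
automorphism (used for `k ≥ 1` and relational languages). -/
def RigidSubsets (k : ℕ) : Prop :=
  ∀ S : L.Substructure M, Nat.card S = k → ∀ (e : S ≃[L] S) (s : S), e s = s

/-- `a_i ↦ b_i` is an isomorphism of the induced substructures on the entries of the tuples of distinct
elements `a` and `b` (the language is relational): the tuples have the same quantifier-free type. -/
def SameType {k : ℕ} (a b : Fin k → M) : Prop :=
  ∀ (n : ℕ) (R : L.Relations n) (j : Fin n → Fin k),
    Structure.RelMap R (a ∘ j) ↔ Structure.RelMap R (b ∘ j)

/-- The action of `G` on `M` is by automorphisms and structurally sharply `k`-transitive. -/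
def IsSharplyTransitive (k : ℕ) (G : Type*) [Group G] [MulAction G M] : Prop :=
  (∀ (g : G) (n : ℕ) (R : L.Relations n) (x : Fin n → M),
    Structure.RelMap R (fun i => g • x i) ↔ Structure.RelMap R x) ∧
  ∀ a b : Fin k → M, Function.Injective a → Function.Injective b → SameType L M a b →
    ∃! g : G, ∀ i, g • a i = b i

end Defs

variable {L : FirstOrder.Language.{u, v}} {M : Type w} [L.Structure M] {k : ℕ}

/-- rigidity for tuples -/
theorem rigid_tuples [L.IsRelational] (h : RigidSubsets L M k) : X225.Fr.Rigid L M k := by
  classical
  intro x τ hx hτ hT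
  let ex : Fin k ≃ Set.range x := Equiv.ofInjective x hx
  let τe : Fin k ≃ Fin k := Equiv.ofBijective τ (Finite.injective_iff_bijective.1 hτ)
  let σ : Set.range x ≃ Set.range x := ex.symm.trans (τe.trans ex)
  have hσ : ∀ m, σ (ex m) = ex (τ m) := by
    intro m
    change ex (τe (ex.symm (ex m))) = ex (τ m)
    rw [Equiv.symm_apply_apply]
    rfl
  let e : X225.Fr.rng L x ≃[L] X225.Fr.rng L x :=
    { toEquiv := σ
      map_fun' := fun {_} f _ => isEmptyElim f
      map_rel' := fun {n} R y => by
        have h1 := hT n R (fun i => ex.symm (y i))
        have h2 : (x ∘ fun i => ex.symm (y i)) = fun i => (y i : M) := by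
          funext i
          have h3 := congrArg Subtype.val (ex.apply_symm_apply (y i))
          exact h3
        have h4 : ((x ∘ τ) ∘ fun i => ex.symm (y i)) = fun i => (σ (y i) : M) := by
          funext i
          have h3 := hσ (ex.symm (y i))
          have h5 : ex (ex.symm (y i)) = y i := ex.apply_symm_apply (y i)
          have h6 : σ (y i) = ex (τ (ex.symm (y i))) := by
            rw [← h3]
            exact congrArg σ h5.symm
          change x (τ (ex.symm (y i))) = ((σ (y i) : Set.range x) : M)
          exact (congrArg Subtype.val h6).symm
        rw [h2, h4] at h1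
        exact h1.symm }
  have hcard : Nat.card (X225.Fr.rng L x) = k := by
    have h1 : Nat.card (Set.range x) = Nat.card (Fin k) := Nat.card_congr ex.symm
    rw [Nat.card_fin] at h1
    exact h1
  have h1 := h (X225.Fr.rng L x) hcard e
  funext m
  have h2 : σ (ex m) = ex m := h1 (ex m)
  rw [hσ] at h2
  exact ex.injective h2

/-- walks are given by the action of the free group -/
theorem walk_iff (gp : ℕ → Equiv.Perm M) : ∀ (w : List (ℕ × Bool)) (x y : Fin k → M),
    X225.Fr.Walk (fun l x y => cond l.2 (gp l.1 x = y) (gp l.1 y = x)) w x y ↔
      ∀ m, FreeGroup.lift gp (FreeGroup.mk w) (x m) = y m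
  | [], x, y => by
    rw [FreeGroup.lift_mk]
    exact funext_iff
  | l :: w, x, y => by
    have h1 : FreeGroup.lift gp (FreeGroup.mk (l :: w)) =
        (cond l.2 (gp l.1) (gp l.1)⁻¹) * FreeGroup.lift gp (FreeGroup.mk w) := by
      rw [FreeGroup.lift_mk, FreeGroup.lift_mk, List.map_cons, List.prod_cons]
    rw [h1]
    obtain ⟨i, ε⟩ := l
    constructor
    · rintro ⟨z, hz, hy⟩ m
      have h2 := (walk_iff gp w x z).1 hz m
      have h3 := hy m
      change (cond ε (gp i) (gp i)⁻¹) (FreeGroup.lift gp (FreeGroup.mk w) (x m)) = y m
      rw [h2]
      cases ε with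
      | true => exact h3
      | false =>
        change (gp i).symm (z m) = y m
        have h4 : gp i (y m) = z m := h3
        rw [← h4, Equiv.symm_apply_apply]
    · intro h
      refine ⟨fun m => FreeGroup.lift gp (FreeGroup.mk w) (x m), (walk_iff gp w _ _).2 fun m => rfl,
        fun m => ?_⟩
      have h2 := h m
      change (cond ε (gp i) (gp i)⁻¹) (FreeGroup.lift gp (FreeGroup.mk w) (x m)) = y m at h2
      cases ε with
      | true => exact h2
      | false =>
        change gp i (y m) = _
        rw [← h2]
        change gp i ((gp i).symm _) = _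
        rw [Equiv.apply_symm_apply]

/-- **Every Fraisse structure with rigid `k`-subsets (`k ≥ 1`) admits a structurally sharply
`k`-transitive action, namely by the free group of countable rank.** -/
theorem result (L : FirstOrder.Language.{u, v}) (M : Type w) [L.Structure M] (k : ℕ) (hk : 1 ≤ k)
    (hM : IsFraisseStructure L M) (hrig : RigidSubsets L M k) :
    ∃ _ : MulAction (FreeGroup ℕ) M, IsSharplyTransitive L M k (FreeGroup ℕ) := by
  have _ := hM.relational
  have _ := hM.countable
  obtain ⟨gp, h1, h2, h3⟩ := X225.Fr.exists_perms (L := L) (M := M) hk hM.ultrahomogeneous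
    (X225.St.StrongAmalgamation.na hM.ultrahomogeneous hM.strongAmalgamation) (rigid_tuples hrig)
  refine ⟨MulAction.compHom M (FreeGroup.lift gp), ?_, ?_⟩
  · intro g n R x
    change Structure.RelMap R (fun i => FreeGroup.lift gp g (x i)) ↔ Structure.RelMap R x
    have hgen : ∀ (i : ℕ) (x : Fin n → M),
        Structure.RelMap R (fun m => gp i (x m)) ↔ Structure.RelMap R x := by
      intro i x
      obtain ⟨g, hg⟩ := h1 i n x
      have h4 : (fun m => gp i (x m)) = g ∘ x := funext fun m => (hg m).symm
      rw [h4]
      exact g.map_rel R x
    have hgen' : ∀ (i : ℕ) (x : Fin n → M),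
        Structure.RelMap R (fun m => (gp i)⁻¹ (x m)) ↔ Structure.RelMap R x := by
      intro i x
      rw [← hgen i fun m => (gp i)⁻¹ (x m)]
      have h4 : (fun m => gp i ((gp i)⁻¹ (x m))) = x := funext fun m => (gp i).apply_symm_apply _
      rw [h4]
    induction g using FreeGroup.induction_on generalizing x with
    | C1 =>
      rw [map_one]
      exact Iff.rfl
    | of i =>
      have h4 : FreeGroup.lift gp (FreeGroup.of i) = gp i := FreeGroup.lift_apply_of
      rw [h4]
      exact hgen i x
    | inv_of i _ =>
      have h4 : FreeGroup.lift gp (FreeGroup.of i) = gp i := FreeGroup.lift_apply_of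
      rw [map_inv, h4]
      exact hgen' i x
    | mul a b ha hb =>
      rw [map_mul]
      exact (ha fun i => FreeGroup.lift gp b (x i)).trans (hb x)
  · intro a b ha hb hab
    obtain ⟨w, hw⟩ := h3 a b ha hb hab
    have hw' := (walk_iff gp w a b).1 hw
    refine ⟨FreeGroup.mk w, hw', fun g hg => ?_⟩
    have hg' : ∀ m, FreeGroup.lift gp g (a m) = b m := hg
    have h4 : ∀ m, FreeGroup.lift gp ((FreeGroup.mk w)⁻¹ * g) (a m) = a m := by
      intro m
      rw [map_mul, map_inv]
      change (FreeGroup.lift gp (FreeGroup.mk w)).symm (FreeGroup.lift gp g (a m)) = a m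
      rw [hg' m, ← hw' m, Equiv.symm_apply_apply]
    have h5 := FreeGroup.mk_toWord (x := (FreeGroup.mk w)⁻¹ * g)
    have h6 := (walk_iff (k := k) gp ((FreeGroup.mk w)⁻¹ * g).toWord a a).2 (by rw [h5]; exact h4)
    have h7 := h2 _ a ha FreeGroup.isReduced_toWord h6
    have h8 := FreeGroup.toWord_eq_nil_iff.1 h7
    exact (inv_mul_eq_one.1 h8).symm

end Pool.Agent.Results.MP_301b8f_al.RigidSharplyTransitive
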